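import Pool.Agent.H20.RCC.Stmts

set_option autoImplicit false

namespace Pool.RCC

namespace G0A

lemma W_congr (c c' : ℕ → ℕ) (h : ∀ d, 1 ≤ d → d ≤ 9 → c d = c' d) : W c = W c' := by
  unfold W wd
  rw [h 1 (by norm_num) (by norm_num), h 2 (by norm_num) (by norm_num),
    h 3 (by norm_num) (by norm_num), h 4 (by norm_num) (by norm_num),
    h 5 (by norm_num) (by norm_num), h 6 (by norm_num) (by norm_num),
    h 7 (by norm_num) (by norm_num), h 8 (by norm_num) (by norm_num),
    h 9 (by norm_num) (by norm_num)]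

lemma len_wd (v : ℕ → ℕ) : (wd v).length = tot v := by
  simp only [wd, tot, List.length_append, List.length_replicate]
  omega

lemma cnt_wd (v : ℕ → ℕ) (d : ℕ) (h1 : 1 ≤ d) (h9 : d ≤ 9) : (wd v).count d = v d := by
  interval_cases d <;> simp [wd, List.count_append, List.count_replicate]

lemma mem_wd (v : ℕ → ℕ) (x : ℕ) (hx : x ∈ wd v) : 1 ≤ x ∧ x ≤ 9 := by
  simp only [wd, List.mem_append, List.mem_replicate] at hx
  omega

/-- adding 9 + x with carry 1 gives x and carry 1 -/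
lemma ad9 (S : List ℕ) (hS : ∀ x ∈ S, 1 ≤ x ∧ x ≤ 9) :
    ad 1 (S.map (9 + ·)) = S ∧ co 1 (S.map (9 + ·)) = 1 := by
  induction S with
  | nil => simp [ad, co]
  | cons x S ih =>
    have hx := hS x (by simp)
    have ih' := ih (fun y hy => hS y (by simp [hy]))
    have e1 : (9 + x + 1) % 10 = x := by omega
    have e2 : (9 + x + 1) / 10 = 1 := by omega
    simp only [List.map_cons, ad, co, e1, e2]
    exact ⟨by rw [ih'.1], ih'.2⟩

end G0A

open G0A in
theorem G0A_thm (hTW : TWStmt) (hAR : ARStmt) (hDEC : DECStmt) (hZI : ZI0Stmt) : G0AStmt := by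
  intro v hv
  have hv9 : v 9 = 0 := by
    have := hv.2.2.2.1
    simpa [lo] using this
  have hv1 : v 1 = 0 := by
    have := hv.2.2.2.2
    simpa using this
  refine ⟨-(tot v : ℤ), 0, ?_, ?_, ?_⟩
  · rw [abs_neg, abs_of_nonneg (by positivity)]
    unfold Mv
    push_cast
    omega
  · simp
  intro p q
  refine ⟨?_, fun h => by omega⟩
  intro _ hq hp
  unfold Mv at hq hp
  obtain ⟨b, hb⟩ : ∃ b, p = q + tot v + (b + 1) := ⟨p - q - tot v - 1, by omega⟩
  obtain ⟨a, ha⟩ : ∃ a, q = a + 1 := ⟨q - 1, by omega⟩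
  refine ⟨b + 1, 2 * q, ?_, ?_, ?_⟩
  · rw [hb]; push_cast; ring
  · simp
  have hlist : List.zipWith (· + ·) (wd (cv 0 p q v)) (wd (cv 0 p q v)).reverse =
      List.replicate (a + 1) 10 ++ ((wd v).reverse.map (9 + ·) ++
      (List.replicate (b + 1) 18 ++ ((wd v).map (· + 9) ++ List.replicate (a + 1) 10))) := by
    have h := (hZI (wd v) (wd (cv 0 p q v)) (a + 1) (b + 1)).1
    apply h
    rw [(hDEC 0 p q v hv).2 rfl, len_wd, ← ha, hb]
  rw [hTW _ _ hlist]
  have hcomm : (wd v).map (· + 9) = (wd v).map (9 + ·) := by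
    apply List.map_congr_left
    intro x _
    omega
  rw [hcomm]
  have hrev : ∀ x ∈ (wd v).reverse, 1 ≤ x ∧ x ≤ 9 := by
    intro x hx
    exact mem_wd v x (List.mem_reverse.1 hx)
  have hA := hAR.1
  have hR := hAR.2.2.1
  have r1 := hR 0 a 10 (by norm_num) (by norm_num)
  have r2 := hR 1 b 18 (by norm_num) (by norm_num)
  have r3 := hR 1 a 10 (by norm_num) (by norm_num)
  have s1 := ad9 (wd v).reverse hrev
  have s2 := ad9 (wd v) (mem_wd v)
  norm_num at r1 r2 r3
  have hco : co 0 (List.replicate (a + 1) 10 ++ ((wd v).reverse.map (9 + ·) ++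
      (List.replicate (b + 1) 18 ++ ((wd v).map (9 + ·) ++ List.replicate (a + 1) 10)))) = 1 := by
    rw [(hA _ _ _).2, r1.2, (hA _ _ _).2, s1.2, (hA _ _ _).2, r2.2, (hA _ _ _).2, s2.2, r3.2]
  have had : ad 0 (List.replicate (a + 1) 10 ++ ((wd v).reverse.map (9 + ·) ++
      (List.replicate (b + 1) 18 ++ ((wd v).map (9 + ·) ++ List.replicate (a + 1) 10)))) =
      (0 :: List.replicate a 1) ++ ((wd v).reverse ++ ((9 :: List.replicate b 9) ++
        (wd v ++ (1 :: List.replicate a 1)))) := by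
    rw [(hA _ _ _).1, r1.1, r1.2, (hA _ _ _).1, s1.1, s1.2, (hA _ _ _).1, r2.1, r2.2,
      (hA _ _ _).1, s2.1, s2.2, r3.1]
  rw [hco, had]
  apply W_congr
  intro d hd1 hd9
  have hc := cnt_wd v d hd1 hd9
  simp only [List.count_append, List.count_reverse, hc, List.count_cons, List.count_replicate,
    List.count_nil]
  unfold cv stp nk sd lo
  interval_cases d <;> simp [hv9, hv1] <;> omega

end Pool.RCC
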