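import Pool.Agent.H20.RCC.Stmts

set_option autoImplicit false

namespace Pool.RCC

theorem ZNP_thm : ZNPStmt := by
  intro k H
  induction H with
  | nil =>
    intro L
    induction L with
    | nil =>
      refine ⟨by simp [zn], ?_⟩
      intro _ _ _ s hs
      simp [zn] at hs
    | cons l L ih =>
      refine ⟨?_, ?_⟩
      · simp only [zn, List.length_cons, List.length_nil]
        rw [ih.1]
        simp
      · intro hk hH hL s hs
        simp only [zn, List.mem_cons] at hs
        rcases hs with rfl | hs
        · have := hL l (by simp)
          omega
        · exact ih.2 hk hH (fun x hx => hL x (by simp [hx])) s hs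
  | cons h H ih =>
    intro L
    cases L with
    | nil =>
      refine ⟨?_, ?_⟩
      · simp only [zn, List.length_cons, List.length_nil]
        rw [(ih []).1]
        simp
      · intro hk hH hL s hs
        simp only [zn, List.mem_cons] at hs
        rcases hs with rfl | hs
        · have := hH h (by simp)
          omega
        · exact (ih []).2 hk (fun x hx => hH x (by simp [hx])) hL s hs
    | cons l L =>
      refine ⟨?_, ?_⟩
      · simp only [zn, List.length_cons]
        rw [(ih L).1]
        omega
      · intro hk hH hL s hs
        simp only [zn, List.mem_cons] at hs
        rcases hs with rfl | hs
        · have := hH h (by simp)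
          have := hL l (by simp)
          omega
        · exact (ih L).2 hk (fun x hx => hH x (by simp [hx]))
            (fun x hx => hL x (by simp [hx])) s hs

end Pool.RCC
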